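import Pool.Agent.J6H63.NC.GL

/-!
# Modules INF and SEP
-/

set_option autoImplicit false

open MeasureTheory ProbabilityTheory Filter Topology
open scoped ENNReal

namespace Pool.Agent.J6H63.NC

open Pool.Agent.J6H99.NC

lemma continuous_nr {e : ℕ} (y : E e) : Continuous fun y' : E e => nr (y' - y) := by
  unfold nr
  fun_prop

/-- MODULE INF -/
theorem inf : InfT := by
  intro q F _ H hfin
  set S := {c : E 0 | ∃ y : E 0, y ≠ 0 ∧ Supp q F c y} with hS
  -- a direction and its functional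
  obtain ⟨c, hc, -, hcpos, -⟩ := H (fun _ => 1) (fun h => by
    have := congrFun h 0
    simp at this)
  set y0 : E 0 := fun _ => 1 with hy0
  have hy0ne : y0 ≠ 0 := fun h => by
    have := congrFun h 0
    simp [hy0] at this
  obtain ⟨c1, hc1, -, hc1pos, -⟩ := H (-y0) (neg_ne_zero.2 hy0ne)
  have hne : c1 ≠ c := by
    intro h
    rw [h, dt_neg] at hc1pos
    linarith
  set t : Set (E 0) := {y | Supp q F c y} with ht
  set t' : Set (E 0) := ⋃ c' ∈ S \ {c}, {y | Supp q F c' y} with ht'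
  have hct : IsClosed t := supp_closed c
  have hct' : IsClosed t' := (hfin.sdiff).isClosed_biUnion fun c' _ => supp_closed c'
  have hrank : 1 < Module.rank ℝ (E 0) := by
    rw [rank_fin_fun]
    norm_num
  have hpre : IsPreconnected ({0}ᶜ : Set (E 0)) :=
    (isConnected_compl_singleton_of_one_lt_rank hrank 0).isPreconnected
  have hcover : ({0}ᶜ : Set (E 0)) ⊆ t ∪ t' := by
    intro y hy
    obtain ⟨c', hc', -, -, -⟩ := H y hy
    by_cases h : c' = c
    · left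
      rw [h] at hc'
      exact hc'
    · right
      simp only [ht', Set.mem_iUnion]
      exact ⟨c', ⟨⟨y, hy, hc'⟩, h⟩, hc'⟩
  obtain ⟨y, hy, hyt, hyt'⟩ := isPreconnected_closed_iff.1 hpre t t' hct hct' hcover
    ⟨y0, hy0ne, hc⟩ ⟨-y0, neg_ne_zero.2 hy0ne, by
      simp only [ht', Set.mem_iUnion]
      exact ⟨c1, ⟨⟨-y0, neg_ne_zero.2 hy0ne, hc1⟩, hne⟩, hc1⟩⟩
  simp only [ht', Set.mem_iUnion] at hyt'
  obtain ⟨c', ⟨-, hc'c⟩, hc'⟩ := hyt'
  obtain ⟨c2, -, -, -, huniq⟩ := H y hy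
  exact hc'c ((huniq c' hc').trans (huniq c hyt).symm)

lemma exists_pos_le {α : Type*} (t : Finset α) (f : α → ℝ) (hf : ∀ a ∈ t, 0 < f a) :
    ∃ η : ℝ, 0 < η ∧ ∀ a ∈ t, η ≤ f a := by
  classical
  induction t using Finset.induction_on with
  | empty => exact ⟨1, one_pos, by simp⟩
  | insert a t ha ih =>
    obtain ⟨η, h1, h2⟩ := ih fun b hb => hf b (Finset.mem_insert_of_mem hb)
    refine ⟨min η (f a), lt_min h1 (hf a (Finset.mem_insert_self _ _)), fun b hb => ?_⟩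
    rcases Finset.mem_insert.1 hb with rfl | hb
    · exact min_le_right _ _
    · exact (min_le_left _ _).trans (h2 b hb)

lemma isCompact_sphere_nr (e : ℕ) : IsCompact {y : E e | nr y = 1} := by
  have hcont : Continuous fun y : E e => nr y := by unfold nr; fun_prop
  refine Metric.isCompact_of_isClosed_isBounded (isClosed_eq hcont continuous_const) ?_
  refine (Metric.isBounded_closedBall (x := (0 : E e)) (r := 1)).subset fun y hy => ?_
  rw [mem_closedBall_zero_iff, pi_norm_le_iff_of_nonneg zero_le_one]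
  intro i
  have h1 : nr y = 1 := hy
  rw [Real.norm_eq_abs, ← h1]
  exact abs_coord_le y i

/-- MODULE SEP -/
theorem sep : SepT := by
  intro q F _ H s hs
  have hlb : ∀ c ∈ s, ∀ x : V 0, lf c x ≤ g q F x := fun c hc => by
    obtain ⟨y, _, h⟩ := hs c hc
    exact h.1
  -- locally
  have hloc : ∀ y : E 0, ∃ ε : ℝ, 0 < ε ∧ ∀ c ∈ s, ∀ z : V 0, 0 < n1 z →
      nr ((n1 z : ℝ)⁻¹ • vc z - y) ≤ ε → g q F z ≤ lf c z + ε * n1 z → Supp q F c y := by
    intro y
    have h1 : ∀ c : E 0, ∃ ε : ℝ, 0 < ε ∧ (c ∈ s → ∀ z : V 0, 0 < n1 z →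
        nr ((n1 z : ℝ)⁻¹ • vc z - y) ≤ ε → g q F z ≤ lf c z + ε * n1 z → Supp q F c y) := by
      intro c
      by_cases hc : c ∈ s
      · by_cases hcy : Supp q F c y
        · exact ⟨1, one_pos, fun _ _ _ _ _ => hcy⟩
        · have h2 : ¬ ∀ ε : ℝ, 0 < ε → ∃ z : V 0, 0 < n1 z ∧
              nr ((n1 z : ℝ)⁻¹ • vc z - y) ≤ ε ∧ g q F z ≤ lf c z + ε * n1 z :=
            fun h => hcy (supp_of_approx (hlb c hc) h)
          push Not at h2
          obtain ⟨ε, hε, h3⟩ := h2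
          exact ⟨ε, hε, fun _ z hz1 hz2 hz3 => absurd hz3 (not_le.2 (h3 z hz1 hz2))⟩
      · exact ⟨1, one_pos, fun h => absurd h hc⟩
    choose f hf1 hf2 using h1
    obtain ⟨η, hη, h3⟩ := exists_pos_le s f fun c _ => hf1 c
    refine ⟨η, hη, fun c hc z hz1 hz2 hz3 => hf2 c hc z hz1 (hz2.trans (h3 c hc)) (hz3.trans ?_)⟩
    have h0 : (0 : ℝ) ≤ n1 z := by exact_mod_cast n1_nonneg z
    have := mul_le_mul_of_nonneg_right (h3 c hc) h0
    linarith
  choose ε hε hεs using hloc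
  obtain ⟨t, hts, ht⟩ := (isCompact_sphere_nr 0).elim_nhds_subcover
    (fun y => {y' : E 0 | nr (y' - y) < ε y}) fun y _ =>
      (isOpen_lt (continuous_nr y) continuous_const).mem_nhds (by simpa using hε y)
  obtain ⟨η, hη, h3⟩ := exists_pos_le t ε fun y _ => hε y
  refine ⟨η, 1, hη, fun c hc c' hc' hne z hz h1 h2 => ?_⟩
  have hz0 : 0 < n1 z := by
    have : ((1 : ℕ) : ℤ) ≤ n1 z := hz
    push_cast at this
    omega
  have hz1 : (0 : ℝ) < n1 z := by exact_mod_cast hz0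
  have hsph : (n1 z : ℝ)⁻¹ • vc z ∈ {y : E 0 | nr y = 1} := by
    show nr ((n1 z : ℝ)⁻¹ • vc z) = 1
    rw [nr_smul, nr_vc, abs_of_pos (inv_pos.2 hz1), inv_mul_cancel₀ hz1.ne']
  have h4 := ht hsph
  simp only [Set.mem_iUnion, Set.mem_ofPred_eq] at h4
  obtain ⟨y, hyt, hy⟩ := h4
  have hle : η * (n1 z : ℝ) ≤ ε y * n1 z := mul_le_mul_of_nonneg_right (h3 y hyt) hz1.le
  have hS1 := hεs y c hc z hz0 hy.le (by linarith)
  have hS2 := hεs y c' hc' z hz0 hy.le (by linarith)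
  have hy0 : y ≠ 0 := by
    intro h
    have h5 : nr y = 1 := hts y hyt
    rw [h, nr_zero] at h5
    exact zero_ne_one h5
  obtain ⟨c2, -, -, -, huniq⟩ := H y hy0
  exact hne ((huniq c hS1).trans (huniq c' hS2).symm)

end Pool.Agent.J6H63.NC
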