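import Pool.Agent.J6H99.NC.Stm3
import Pool.Agent.J6H63.NC.InfSep

/-!
# Module SEP2
-/

set_option autoImplicit false

open MeasureTheory ProbabilityTheory Filter Topology
open scoped ENNReal

namespace Pool.Agent.J6H63.NC

open Pool.Agent.J6H99.NC

/-- MODULE SEP2 -/
theorem sep2 : Sep2T := by
  intro e q F _ s N hlb hunc
  -- locally
  have hloc : ∀ y : Fin N → E e, ∃ ε : ℝ, 0 < ε ∧ ((∀ j, y j ≠ 0) → ∃ c ∈ s, ∀ j : Fin N,
      ∀ z : V e, 0 < n1 z → nr ((n1 z : ℝ)⁻¹ • vc z - y j) ≤ ε →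
        lf c z + ε * n1 z < g q F z) := by
    intro y
    by_cases hy : ∀ j, y j ≠ 0
    · obtain ⟨c, hc, hcy⟩ := hunc y hy
      have h1 : ∀ j : Fin N, ∃ ε : ℝ, 0 < ε ∧ ∀ z : V e, 0 < n1 z →
          nr ((n1 z : ℝ)⁻¹ • vc z - y j) ≤ ε → lf c z + ε * n1 z < g q F z := by
        intro j
        have h2 : ¬ ∀ ε : ℝ, 0 < ε → ∃ z : V e, 0 < n1 z ∧
            nr ((n1 z : ℝ)⁻¹ • vc z - y j) ≤ ε ∧ g q F z ≤ lf c z + ε * n1 z :=
          fun h => hcy j (supp_of_approx (hlb c hc) h)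
        push Not at h2
        exact h2
      choose f hf1 hf2 using h1
      obtain ⟨η, hη, h3⟩ := exists_pos_le (Finset.univ : Finset (Fin N)) f fun j _ => hf1 j
      refine ⟨η, hη, fun _ => ⟨c, hc, fun j z hz1 hz2 => ?_⟩⟩
      have h0 : (0 : ℝ) ≤ n1 z := by exact_mod_cast n1_nonneg z
      have h4 := h3 j (Finset.mem_univ j)
      have h5 := hf2 j z hz1 (hz2.trans h4)
      have h6 := mul_le_mul_of_nonneg_right h4 h0
      linarith
    · exact ⟨1, one_pos, fun h => absurd h hy⟩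
  choose ε hε hεs using hloc
  have hcomp : IsCompact (Set.pi Set.univ fun _ : Fin N => {y : E e | nr y = 1}) :=
    isCompact_univ_pi fun _ => isCompact_sphere_nr e
  obtain ⟨t, hts, ht⟩ := hcomp.elim_nhds_subcover
    (fun y => {y' : Fin N → E e | ∀ j, nr (y' j - y j) < ε y}) fun y _ => by
      have h1 : IsOpen {y' : Fin N → E e | ∀ j, nr (y' j - y j) < ε y} := by
        simp only [Set.ofPred_forall]
        exact isOpen_iInter_of_finite fun j =>
          isOpen_lt ((continuous_nr (y j)).comp (continuous_apply j)) continuous_const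
      exact h1.mem_nhds fun j => by simpa using hε y
  obtain ⟨η, hη, h3⟩ := exists_pos_le t ε fun y _ => hε y
  refine ⟨η, 1, hη, fun φ => ?_⟩
  by_contra hcon
  push Not at hcon
  choose z hz1 hz2 using hcon
  have hz0 : ∀ j, 0 < n1 (z j) := fun j => by
    have : ((1 : ℕ) : ℤ) ≤ n1 (z j) := hz1 j
    push_cast at this
    omega
  have hz0' : ∀ j, (0 : ℝ) < n1 (z j) := fun j => by exact_mod_cast hz0 j
  have hmem : (fun j => (n1 (z j) : ℝ)⁻¹ • vc (z j)) ∈
      Set.pi Set.univ fun _ : Fin N => {y : E e | nr y = 1} := by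
    intro j _
    show nr ((n1 (z j) : ℝ)⁻¹ • vc (z j)) = 1
    rw [nr_smul, nr_vc, abs_of_pos (inv_pos.2 (hz0' j)), inv_mul_cancel₀ (hz0' j).ne']
  have h4 := ht hmem
  simp only [Set.mem_iUnion] at h4
  obtain ⟨y, hyt, hy⟩ := h4
  have hy' : ∀ j, nr ((n1 (z j) : ℝ)⁻¹ • vc (z j) - y j) < ε y := hy
  have hyne : ∀ j, y j ≠ 0 := by
    intro j h
    have h5 : nr (y j) = 1 := hts y hyt j (Set.mem_univ j)
    rw [h, nr_zero] at h5
    exact zero_ne_one h5
  obtain ⟨c, hc, hcy⟩ := hεs y hyne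
  have h6 := hcy (φ c) (z (φ c)) (hz0 _) (hy' _).le
  have h7 := hz2 (φ c) c hc rfl
  have h8 := mul_le_mul_of_nonneg_right (h3 y hyt) (hz0' (φ c)).le
  linarith

end Pool.Agent.J6H63.NC
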