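import Pool.Agent.J6H99.NC.Stm

/-!
# The mean passage time: subadditivity, Lipschitz property; supporting functionals
-/

set_option autoImplicit false

open MeasureTheory ProbabilityTheory Filter Topology
open scoped ENNReal

namespace Pool.Agent.J6H63.NC

open Pool.Agent.J6H99.NC

variable {e : ℕ} (q : Par) (F : Measure ℝ) [IsProbabilityMeasure F]

lemma integrable_T (x y : V e) : Integrable (fun ω : Om e => T q ω x y) (PM e F) := by
  refine Integrable.of_bound (measurable_T q x y).aestronglyMeasurable (q.b * n1 (y - x))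
    (Eventually.of_forall fun ω => ?_)
  rw [Real.norm_of_nonneg (T_nonneg q ω x y)]
  exact T_le_n1 q ω x y

lemma integral_T (x y : V e) : ∫ ω, T q ω x y ∂(PM e F) = g q F (y - x) := by
  have h1 : ∀ ω : Om e, T q (act (tr x) ω) 0 (y - x) = T q ω x y := by
    intro ω
    rw [T_act]
    simp
  simp_rw [← h1]
  have h2 := (act_mp F (tr x)).map_eq
  unfold g
  conv_rhs => rw [← h2]
  rw [integral_map (act_mp F (tr x)).measurable.aemeasurable
    (measurable_T q 0 (y - x)).aestronglyMeasurable]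

lemma g_nonneg (x : V e) : 0 ≤ g q F x := integral_nonneg fun ω => T_nonneg q ω 0 x

lemma g_le (x : V e) : g q F x ≤ q.b * n1 x := by
  unfold g
  calc ∫ ω, T q ω 0 x ∂(PM e F) ≤ ∫ _, q.b * n1 x ∂(PM e F) := by
        refine integral_mono (integrable_T q F 0 x) (integrable_const _) fun ω => ?_
        have := T_le_n1 q ω 0 x
        rwa [sub_zero] at this
    _ = q.b * n1 x := by simp

lemma g_add_le (x y : V e) : g q F (x + y) ≤ g q F x + g q F y := by
  have h1 : g q F y = ∫ ω, T q ω x (x + y) ∂(PM e F) := by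
    rw [integral_T]; congr 1; abel
  rw [h1]
  unfold g
  rw [← integral_add (integrable_T q F _ _) (integrable_T q F _ _)]
  exact integral_mono (integrable_T q F _ _)
    ((integrable_T q F _ _).add (integrable_T q F _ _)) fun ω => T_tri q ω 0 x (x + y)

lemma g_sub_le (x y : V e) : g q F x ≤ g q F y + q.b * n1 (x - y) := by
  have h1 := g_add_le q F y (x - y)
  have h2 := g_le q F (x - y)
  rw [add_sub_cancel] at h1
  linarith

lemma g_zero : g q F (0 : V e) = 0 := by
  have h1 := g_le q F (0 : V e)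
  have h2 := g_nonneg q F (0 : V e)
  simp only [n1_zero, Int.cast_zero, mul_zero] at h1
  linarith

lemma g_nsmul (j : ℕ) (z : V e) : g q F ((j : ℤ) • z) ≤ j * g q F z := by
  induction j with
  | zero => simp [g_zero]
  | succ j ih =>
    have h1 := g_add_le q F ((j : ℤ) • z) z
    have h2 : ((j : ℤ) • z) + z = ((j + 1 : ℕ) : ℤ) • z := by
      push_cast
      rw [add_smul, one_smul]
    rw [h2] at h1
    push_cast
    push_cast at h1
    linarith

variable {q F}

/-- points with almost equality near the direction `y`: then `c` supports at `y` -/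
theorem supp_of_approx {c y : E e} (hc : ∀ x : V e, lf c x ≤ g q F x)
    (h : ∀ ε : ℝ, 0 < ε → ∃ z : V e, 0 < n1 z ∧ nr ((n1 z : ℝ)⁻¹ • vc z - y) ≤ ε ∧
      g q F z ≤ lf c z + ε * n1 z) : Supp q F c y := by
  refine ⟨hc, fun δ hδ => ?_⟩
  have hb := q.hb
  have hnc := nr_nonneg c
  set ε : ℝ := δ / (2 * (1 + q.b + nr c)) with hε
  have hK : 0 < 1 + q.b + nr c := by linarith
  have hε0 : 0 < ε := by positivity
  obtain ⟨z, hz, hzy, hg⟩ := h ε hε0
  obtain ⟨m, hm⟩ : ∃ m : ℕ, (m : ℤ) = n1 z := ⟨(n1 z).toNat, Int.toNat_of_nonneg (n1_nonneg z)⟩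
  have hm0 : 0 < m := by omega
  have hmr : (n1 z : ℝ) = m := by rw [← hm]; simp
  rw [hmr] at hzy hg
  have hm1 : (0 : ℝ) < m := by exact_mod_cast hm0
  obtain ⟨N0, hN0⟩ := exists_nat_ge (2 * (nr c * m + q.b * ((e : ℝ) + 2 + m)) / δ)
  filter_upwards [eventually_ge_atTop N0] with n hn
  have hn' : 2 * (nr c * m + q.b * ((e : ℝ) + 2 + m)) ≤ n * δ := by
    have : 2 * (nr c * m + q.b * ((e : ℝ) + 2 + m)) / δ ≤ n := hN0.trans (by exact_mod_cast hn)
    rwa [div_le_iff₀ hδ] at this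
  have hn0 : (0 : ℝ) ≤ n := Nat.cast_nonneg n
  set j := n / m with hj
  have hj1 : (j : ℝ) * m ≤ n := by
    have : j * m ≤ n := Nat.div_mul_le_self n m
    exact_mod_cast this
  have hj2 : (n : ℝ) ≤ j * m + m := by
    have : n < m * (n / m + 1) := Nat.lt_mul_div_succ n hm0
    have h2 : (n : ℝ) < m * (j + 1) := by exact_mod_cast this
    linarith
  have hnz : nr (vc z) = m := by rw [nr_vc, hmr]
  -- the distance
  have hd : (n1 (rnd ((n : ℝ) • y) - (j : ℤ) • z) : ℝ) ≤ (e : ℝ) + 2 + n * ε + m := by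
    rw [← nr_vc, vc_sub, vc_smul]
    have e1 : vc (rnd ((n : ℝ) • y)) - ((j : ℤ) : ℝ) • vc z =
        (vc (rnd ((n : ℝ) • y)) - (n : ℝ) • y) + ((-(n : ℝ)) • ((m : ℝ)⁻¹ • vc z - y) +
          ((n : ℝ) / m - j) • vc z) := by
      funext i
      simp only [Pi.sub_apply, Pi.add_apply, Pi.smul_apply, smul_eq_mul, Int.cast_natCast]
      ring
    rw [e1]
    have h1 := nr_rnd_sub ((n : ℝ) • y)
    have h2 := nr_add_le (vc (rnd ((n : ℝ) • y)) - (n : ℝ) • y)
      ((-(n : ℝ)) • ((m : ℝ)⁻¹ • vc z - y) + ((n : ℝ) / m - j) • vc z)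
    have h3 := nr_add_le ((-(n : ℝ)) • ((m : ℝ)⁻¹ • vc z - y)) (((n : ℝ) / m - j) • vc z)
    rw [nr_smul, nr_smul, abs_neg, abs_of_nonneg hn0, hnz] at h3
    have h4 : |(n : ℝ) / m - j| * m ≤ m := by
      have h5 : |(n : ℝ) / m - j| ≤ 1 := by
        rw [abs_le]
        constructor
        · have : (j : ℝ) ≤ n / m := by rw [le_div_iff₀ hm1]; exact hj1
          linarith
        · have : (n : ℝ) / m ≤ j + 1 := by rw [div_le_iff₀ hm1]; linarith
          linarith
      nlinarith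
    have h6 := mul_le_mul_of_nonneg_left hzy hn0
    linarith
  have h1 := g_sub_le q F (rnd ((n : ℝ) • y)) ((j : ℤ) • z)
  have h2 := g_nsmul q F j z
  have h3 := mul_le_mul_of_nonneg_left hd hb.le
  have hj0 : (0 : ℝ) ≤ j := Nat.cast_nonneg j
  have h4 := mul_le_mul_of_nonneg_left hg hj0
  -- the functional
  have h5 : lf c z = m * dt c ((m : ℝ)⁻¹ • vc z) := by
    rw [dt_smul, ← mul_assoc, mul_inv_cancel₀ hm1.ne', one_mul]; rfl
  have h6 : dt c ((m : ℝ)⁻¹ • vc z) ≤ dt c y + nr c * ε := by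
    have h7 := abs_le.1 (abs_dt_le c ((m : ℝ)⁻¹ • vc z - y))
    rw [dt_sub] at h7
    have h8 := mul_le_mul_of_nonneg_left hzy hnc
    linarith [h7.2]
  have h7 : (j : ℝ) * lf c z ≤ n * (dt c y + nr c * ε) + nr c * m := by
    have h8 := abs_le.1 (abs_lf_le c z)
    rw [hmr] at h8
    have h9 : (n : ℝ) * dt c ((m : ℝ)⁻¹ • vc z) ≤ n * (dt c y + nr c * ε) :=
      mul_le_mul_of_nonneg_left h6 hn0
    have h10 : (n : ℝ) * dt c ((m : ℝ)⁻¹ • vc z) - j * lf c z =
        ((n : ℝ) / m - j) * lf c z := by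
      rw [h5]; field_simp
    have h11 : -(nr c * m) ≤ ((n : ℝ) / m - j) * lf c z := by
      have a1 : (0 : ℝ) ≤ (n : ℝ) / m - j := by
        have : (j : ℝ) ≤ n / m := by rw [le_div_iff₀ hm1]; exact hj1
        linarith
      have a2 : (n : ℝ) / m - j ≤ 1 := by
        have : (n : ℝ) / m ≤ j + 1 := by rw [div_le_iff₀ hm1]; linarith
        linarith
      have a3 : 0 ≤ nr c * m := by positivity
      nlinarith [h8.1]
    linarith
  have h8 : (j : ℝ) * (ε * m) ≤ n * ε := by nlinarith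
  have h9 : ε * (1 + q.b + nr c) = δ / 2 := by
    rw [hε]; field_simp
  have h10 : (n : ℝ) * (ε * (1 + q.b + nr c)) = n * (δ / 2) := by rw [h9]
  nlinarith

/-- the set of directions with a given supporting functional is closed -/
theorem supp_closed (c : E e) : IsClosed {y : E e | Supp q F c y} := by
  refine isClosed_of_closure_subset fun y hy => ?_
  have hb := q.hb
  have hnc := nr_nonneg c
  have hcont : Continuous fun y' : E e => nr (y' - y) := by
    unfold nr
    fun_prop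
  have key : ∀ ε : ℝ, 0 < ε → ∃ y' : E e, Supp q F c y' ∧ nr (y' - y) < ε := by
    intro ε hε
    have h1 : {y' : E e | nr (y' - y) < ε} ∈ 𝓝 y :=
      (isOpen_lt hcont continuous_const).mem_nhds (by simpa using hε)
    obtain ⟨y', h2, h3⟩ := mem_closure_iff_nhds.1 hy _ h1
    exact ⟨y', h3, h2⟩
  refine ⟨(key 1 one_pos).choose_spec.1.1, fun δ hδ => ?_⟩
  set ε : ℝ := δ / (4 * (1 + q.b + nr c)) with hε
  have hK : 0 < 1 + q.b + nr c := by linarith
  have hε0 : 0 < ε := by positivity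
  obtain ⟨y', ⟨_, hy'⟩, hyy⟩ := key ε hε0
  obtain ⟨N0, hN0⟩ := exists_nat_ge (4 * (q.b * (2 * ((e : ℝ) + 2))) / δ)
  filter_upwards [hy' (δ / 4) (by positivity), eventually_ge_atTop N0] with n hn1 hn2
  have hn' : 4 * (q.b * (2 * ((e : ℝ) + 2))) ≤ n * δ := by
    have : 4 * (q.b * (2 * ((e : ℝ) + 2))) / δ ≤ n := hN0.trans (by exact_mod_cast hn2)
    rwa [div_le_iff₀ hδ] at this
  have hn0 : (0 : ℝ) ≤ n := Nat.cast_nonneg n
  have h1 := g_sub_le q F (rnd ((n : ℝ) • y)) (rnd ((n : ℝ) • y'))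
  have h2 := n1_rnd_sub_le ((n : ℝ) • y) ((n : ℝ) • y')
  rw [← smul_sub, nr_smul, abs_of_nonneg hn0, nr_sub_comm] at h2
  have h3 : (n : ℝ) * nr (y' - y) ≤ n * ε := mul_le_mul_of_nonneg_left hyy.le hn0
  have h4 := mul_le_mul_of_nonneg_left (h2.trans (add_le_add_left h3 _)) hb.le
  have h5 : dt c y' ≤ dt c y + nr c * ε := by
    have h7 := abs_le.1 (abs_dt_le c (y' - y))
    rw [dt_sub] at h7
    have h8 := mul_le_mul_of_nonneg_left hyy.le hnc
    linarith [h7.2]
  have h6 : (n : ℝ) * (dt c y' + δ / 4) ≤ n * (dt c y + nr c * ε + δ / 4) :=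
    mul_le_mul_of_nonneg_left (by linarith) hn0
  have h9 : ε * (1 + q.b + nr c) = δ / 4 := by
    rw [hε]; field_simp
  have h10 : (n : ℝ) * (ε * (1 + q.b + nr c)) = n * (δ / 4) := by rw [h9]
  nlinarith

/-- every functional supports at `0` -/
lemma supp_zero {c : E e} (hc : ∀ x : V e, lf c x ≤ g q F x) : Supp q F c 0 := by
  refine ⟨hc, fun δ hδ => Eventually.of_forall fun n => ?_⟩
  simp only [smul_zero, rnd_zero, g_zero, dt_zero, zero_add]
  positivity

end Pool.Agent.J6H63.NC
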